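import Pool.Agent.H500.HC.Stm

set_option autoImplicit false

/-!
# The narrow ray class group is finite (project HC of helper500, part B3)

Elementary proof: the ideal `𝔞` prime to `N` of class `c` times the power `h₀ - 1` of a fixed ideal of
class `c` prime to `N` is principal; the residue class modulo `N` and the signs of a generator
determine the class of `𝔞` modulo the ray.
-/

namespace Pool.Agent.H199.HC.Cls

open NumberField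
open Pool.Agent.H500.HC (TotPos InRay)
open scoped nonZeroDivisors

variable {K : Type} [Field K] [NumberField K]

/-- nonzero and prime to `N` -/
def Good (N : ℕ) (𝔞 : Ideal (𝓞 K)) : Prop := 𝔞 ≠ ⊥ ∧ IsCoprime 𝔞 (Ideal.span {(N : 𝓞 K)})

theorem Good.mul {N : ℕ} {𝔞 𝔟 : Ideal (𝓞 K)} (ha : Good N 𝔞) (hb : Good N 𝔟) : Good N (𝔞 * 𝔟) :=
  ⟨mul_ne_zero ha.1 hb.1, ha.2.mul_left hb.2⟩

theorem Good.pow {N : ℕ} {𝔞 : Ideal (𝓞 K)} (ha : Good N 𝔞) (n : ℕ) : Good N (𝔞 ^ n) :=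
  ⟨pow_ne_zero n ha.1, ha.2.pow_left⟩

theorem good_top (N : ℕ) : Good N (⊤ : Ideal (𝓞 K)) := by
  refine ⟨top_ne_bot, ?_⟩
  rw [← Ideal.one_eq_top]
  exact isCoprime_one_left

theorem Good.gen {N : ℕ} {x : 𝓞 K} (h : Good N (Ideal.span {x})) :
    x ≠ 0 ∧ IsCoprime x (N : 𝓞 K) := by
  refine ⟨?_, (Ideal.isCoprime_span_singleton_iff _ _).1 h.2⟩
  rintro rfl
  exact h.1 (by simp)

/-- the exponent -/
noncomputable def ex (K : Type) [Field K] [NumberField K] (N : ℕ) : ℕ :=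
  2 * Nat.card ((𝓞 K) ⧸ Ideal.span {(N : 𝓞 K)})ˣ

theorem finite_quot {N : ℕ} (hN : 0 < N) : Finite ((𝓞 K) ⧸ Ideal.span {(N : 𝓞 K)}) := by
  apply Ideal.finiteQuotientOfFreeOfNeBot
  rw [Ne, Ideal.span_singleton_eq_bot]
  exact_mod_cast hN.ne'

theorem ex_pos {N : ℕ} (hN : 0 < N) : 0 < ex K N := by
  have := finite_quot (K := K) hN
  unfold ex
  have : 0 < Nat.card ((𝓞 K) ⧸ Ideal.span {(N : 𝓞 K)})ˣ := Nat.card_pos
  omega

theorem dvd_pow {N : ℕ} (hN : 0 < N) {x : 𝓞 K} (hx : IsCoprime x (N : 𝓞 K)) :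
    (N : 𝓞 K) ∣ x ^ ex K N - 1 := by
  have := finite_quot (K := K) hN
  obtain ⟨a, b, hab⟩ := hx
  have h1 : (Ideal.Quotient.mk (Ideal.span {(N : 𝓞 K)}) a) *
      (Ideal.Quotient.mk (Ideal.span {(N : 𝓞 K)}) x) = 1 := by
    rw [← map_mul, ← map_one (Ideal.Quotient.mk (Ideal.span {(N : 𝓞 K)})), Ideal.Quotient.eq,
      Ideal.mem_span_singleton]
    exact ⟨-b, by linear_combination hab⟩
  have h2 : IsUnit (Ideal.Quotient.mk (Ideal.span {(N : 𝓞 K)}) x) :=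
    IsUnit.of_mul_eq_one_right _ h1
  obtain ⟨u, hu⟩ := h2
  have h3 : u ^ Nat.card ((𝓞 K) ⧸ Ideal.span {(N : 𝓞 K)})ˣ = 1 := pow_card_eq_one'
  have h4 : (Ideal.Quotient.mk (Ideal.span {(N : 𝓞 K)}) x) ^ ex K N = 1 := by
    unfold ex
    rw [mul_comm, pow_mul, ← hu, ← Units.val_pow_eq_pow_val, h3, Units.val_one, one_pow]
  rw [← map_pow, ← map_one (Ideal.Quotient.mk (Ideal.span {(N : 𝓞 K)})), Ideal.Quotient.eq,
    Ideal.mem_span_singleton] at h4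
  exact h4

theorem totPos_pow (N : ℕ) {x : 𝓞 K} (hx : x ≠ 0) : TotPos (x ^ ex K N) := by
  intro τ
  have h1 : τ (x : K) ≠ 0 := by
    rw [Ne, map_eq_zero]
    exact_mod_cast hx
  unfold ex
  rw [pow_mul]
  push_cast
  rw [map_pow, map_pow]
  positivity

theorem inRay_pow {N : ℕ} (hN : 0 < N) {x : 𝓞 K} (hx : x ≠ 0) (hc : IsCoprime x (N : 𝓞 K)) :
    InRay N (x ^ ex K N) :=
  ⟨pow_ne_zero _ hx, dvd_pow hN hc, totPos_pow N hx⟩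

theorem inRay_mul {N : ℕ} {x y : 𝓞 K} (hx : InRay N x) (hy : InRay N y) : InRay N (x * y) := by
  refine ⟨mul_ne_zero hx.1 hy.1, ?_, fun τ => ?_⟩
  · have : x * y - 1 = (x - 1) * y + (y - 1) := by ring
    rw [this]
    exact dvd_add (hx.2.1.mul_right y) hy.2.1
  · push_cast
    rw [map_mul]
    exact mul_pos (hx.2.2 τ) (hy.2.2 τ)

theorem inRay_of_mul {N : ℕ} {x z w : 𝓞 K} (hx : InRay N x) (hw : InRay N w)
    (h : w = x * z) : InRay N z := by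
  refine ⟨?_, ?_, fun τ => ?_⟩
  · rintro rfl
    exact hw.1 (by rw [h, mul_zero])
  · have : z - 1 = (w - 1) - (x - 1) * z := by rw [h]; ring
    rw [this]
    exact dvd_sub hw.2.1 (hx.2.1.mul_right z)
  · have h1 := hw.2.2 τ
    rw [h] at h1
    push_cast at h1
    rw [map_mul] at h1
    exact (mul_pos_iff_of_pos_left (hx.2.2 τ)).1 h1

/-- the class number -/
noncomputable def hh (K : Type) [Field K] [NumberField K] : ℕ := Nat.card (ClassGroup (𝓞 K))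

theorem hh_pos : 0 < hh K := Nat.card_pos

open Classical in
/-- the class of an ideal (`1` for the zero ideal) -/
noncomputable def cl (𝔞 : Ideal (𝓞 K)) : ClassGroup (𝓞 K) :=
  if h : 𝔞 ≠ ⊥ then ClassGroup.mk0 ⟨𝔞, mem_nonZeroDivisors_of_ne_zero h⟩ else 1

theorem cl_mul {𝔞 𝔟 : Ideal (𝓞 K)} (ha : 𝔞 ≠ ⊥) (hb : 𝔟 ≠ ⊥) : cl (𝔞 * 𝔟) = cl 𝔞 * cl 𝔟 := by
  have hab : 𝔞 * 𝔟 ≠ ⊥ := mul_ne_zero ha hb
  unfold cl
  rw [dif_pos ha, dif_pos hb, dif_pos hab, ← map_mul]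
  rfl

theorem cl_pow {𝔞 : Ideal (𝓞 K)} (ha : 𝔞 ≠ ⊥) (n : ℕ) : cl (𝔞 ^ n) = cl 𝔞 ^ n := by
  induction n with
  | zero =>
    rw [pow_zero, pow_zero]
    have h1 : (1 : Ideal (𝓞 K)) ≠ ⊥ := one_ne_zero
    unfold cl
    rw [dif_pos h1]
    exact map_one ClassGroup.mk0
  | succ n ih => rw [pow_succ, cl_mul (pow_ne_zero n ha) ha, ih, pow_succ]

theorem principal_of {𝔞 : Ideal (𝓞 K)} (ha : 𝔞 ≠ ⊥) (h : cl 𝔞 = 1) :
    ∃ x : 𝓞 K, 𝔞 = Ideal.span {x} := by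
  unfold cl at h
  rw [dif_pos ha, ClassGroup.mk0_eq_one_iff] at h
  obtain ⟨x, hx⟩ := h.principal
  exact ⟨x, hx⟩

theorem cl_pow_hh (c : ClassGroup (𝓞 K)) : c ^ hh K = 1 := pow_card_eq_one'

open Classical in
/-- an ideal prime to `N` of the given class -/
noncomputable def rep (N : ℕ) (c : ClassGroup (𝓞 K)) : Ideal (𝓞 K) :=
  if h : ∃ 𝔟 : Ideal (𝓞 K), Good N 𝔟 ∧ cl 𝔟 = c then h.choose else ⊤

theorem rep_good (N : ℕ) (c : ClassGroup (𝓞 K)) : Good N (rep N c) := by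
  unfold rep
  split_ifs with h
  · exact h.choose_spec.1
  · exact good_top N

theorem rep_cl {N : ℕ} {𝔞 : Ideal (𝓞 K)} (ha : Good N 𝔞) : cl (rep N (cl 𝔞)) = cl 𝔞 := by
  have h : ∃ 𝔟 : Ideal (𝓞 K), Good N 𝔟 ∧ cl 𝔟 = cl 𝔞 := ⟨𝔞, ha, rfl⟩
  unfold rep
  rw [dif_pos h]
  exact h.choose_spec.2

theorem exists_gen {N : ℕ} {𝔞 : Ideal (𝓞 K)} (ha : Good N 𝔞) :
    ∃ x : 𝓞 K, 𝔞 * rep N (cl 𝔞) ^ (hh K - 1) = Ideal.span {x} := by
  have hr := rep_good N (cl 𝔞)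
  apply principal_of (ha.mul (hr.pow _)).1
  rw [cl_mul ha.1 (hr.pow _).1, cl_pow hr.1, rep_cl ha, ← pow_succ',
    Nat.sub_add_cancel hh_pos, cl_pow_hh]

open Classical in
/-- a generator -/
noncomputable def gn (N : ℕ) (𝔞 : Ideal (𝓞 K)) : 𝓞 K :=
  if h : ∃ x : 𝓞 K, 𝔞 * rep N (cl 𝔞) ^ (hh K - 1) = Ideal.span {x} then h.choose else 0

theorem gn_spec {N : ℕ} {𝔞 : Ideal (𝓞 K)} (ha : Good N 𝔞) :
    𝔞 * rep N (cl 𝔞) ^ (hh K - 1) = Ideal.span {gn N 𝔞} := by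
  unfold gn
  rw [dif_pos (exists_gen ha)]
  exact (exists_gen ha).choose_spec

theorem gn_good {N : ℕ} {𝔞 : Ideal (𝓞 K)} (ha : Good N 𝔞) :
    gn N 𝔞 ≠ 0 ∧ IsCoprime (gn N 𝔞) (N : 𝓞 K) := by
  apply Good.gen
  rw [← gn_spec ha]
  exact ha.mul ((rep_good N _).pow _)

/-- the finite data -/
noncomputable def dt (N : ℕ) (𝔞 : Ideal (𝓞 K)) :
    ClassGroup (𝓞 K) × ((𝓞 K) ⧸ Ideal.span {(N : 𝓞 K)}) × Set (K →+* ℝ) :=
  (cl 𝔞, Ideal.Quotient.mk _ (gn N 𝔞), {τ | 0 < τ (gn N 𝔞 : K)})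

theorem equiv_of {N : ℕ} (hN : 0 < N) {𝔞 𝔟 : Ideal (𝓞 K)} (ha : Good N 𝔞) (hb : Good N 𝔟)
    (h : dt N 𝔞 = dt N 𝔟) :
    ∃ x y : 𝓞 K, InRay N x ∧ InRay N y ∧ Ideal.span {x} * 𝔞 = Ideal.span {y} * 𝔟 := by
  unfold dt at h
  rw [Prod.mk.injEq, Prod.mk.injEq] at h
  obtain ⟨h1, h2, h3⟩ := h
  obtain ⟨a1, a2⟩ := gn_good ha
  obtain ⟨b1, b2⟩ := gn_good hb
  have sa := gn_spec ha
  have sb := gn_spec hb
  rw [← h1] at sb
  have hpos := ex_pos (K := K) hN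
  obtain ⟨e, he⟩ : ∃ e, ex K N = e + 1 := ⟨ex K N - 1, by omega⟩
  refine ⟨gn N 𝔟 * gn N 𝔞 ^ e, gn N 𝔞 ^ ex K N, ⟨?_, ?_, ?_⟩, inRay_pow hN a1 a2, ?_⟩
  · exact mul_ne_zero b1 (pow_ne_zero _ a1)
  · rw [Ideal.Quotient.eq, Ideal.mem_span_singleton] at h2
    have e1 : gn N 𝔟 * gn N 𝔞 ^ e - 1 =
        (gn N 𝔞 ^ ex K N - 1) - (gn N 𝔞 - gn N 𝔟) * gn N 𝔞 ^ e := by
      rw [he]; ring
    rw [e1]
    exact dvd_sub (dvd_pow hN a2) (h2.mul_right _)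
  · intro τ
    have ha0 : τ (gn N 𝔞 : K) ≠ 0 := by
      rw [Ne, map_eq_zero]
      exact_mod_cast a1
    have hb0 : τ (gn N 𝔟 : K) ≠ 0 := by
      rw [Ne, map_eq_zero]
      exact_mod_cast b1
    have h4 : 0 < τ (gn N 𝔞 : K) ↔ 0 < τ (gn N 𝔟 : K) := by
      have : τ ∈ {τ : K →+* ℝ | 0 < τ (gn N 𝔞 : K)} ↔ τ ∈ {τ : K →+* ℝ | 0 < τ (gn N 𝔟 : K)} := by
        rw [h3]
      exact this
    have h5 : 0 < τ (gn N 𝔞 : K) * τ (gn N 𝔟 : K) := by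
      rcases lt_or_gt_of_ne ha0 with h6 | h6
      · have h7 : τ (gn N 𝔟 : K) < 0 :=
          lt_of_le_of_ne (not_lt.1 fun h8 => lt_asymm h6 (h4.2 h8)) hb0
        exact mul_pos_of_neg_of_neg h6 h7
      · exact mul_pos h6 (h4.1 h6)
    have h6 : 0 < τ ((gn N 𝔞 ^ ex K N : 𝓞 K) : K) := totPos_pow N a1 τ
    have h7 : 0 < (τ (gn N 𝔞 : K)) ^ 2 := by positivity
    rw [he] at h6
    push_cast at h6 ⊢
    rw [map_pow] at h6
    rw [map_mul, map_pow]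
    have h8 : (τ (gn N 𝔟 : K) * τ (gn N 𝔞 : K) ^ e) * (τ (gn N 𝔞 : K)) ^ 2 =
        (τ (gn N 𝔞 : K) * τ (gn N 𝔟 : K)) * τ (gn N 𝔞 : K) ^ (e + 1) := by ring
    have h9 : 0 < (τ (gn N 𝔟 : K) * τ (gn N 𝔞 : K) ^ e) * (τ (gn N 𝔞 : K)) ^ 2 := by
      rw [h8]
      exact mul_pos h5 h6
    exact (mul_pos_iff_of_pos_right h7).1 h9
  · have hr : rep N (cl 𝔞) ^ (hh K - 1) ≠ 0 := ((rep_good N (cl 𝔞)).pow _).1
    apply mul_right_cancel₀ hr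
    rw [mul_assoc, mul_assoc, sa, sb, Ideal.span_singleton_mul_span_singleton,
      Ideal.span_singleton_mul_span_singleton, he]
    congr 2
    ring

theorem first {N : ℕ} (hN : 0 < N) {𝔞 : Ideal (𝓞 K)} (ha : Good N 𝔞) :
    ∃ x : 𝓞 K, InRay N x ∧ 𝔞 ^ (hh K * ex K N) = Ideal.span {x} := by
  obtain ⟨x, hx⟩ := principal_of (ha.pow (hh K)).1 (by rw [cl_pow ha.1, cl_pow_hh])
  have hg : Good N (Ideal.span {x}) := by
    rw [← hx]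
    exact ha.pow _
  obtain ⟨h1, h2⟩ := hg.gen
  refine ⟨x ^ ex K N, inRay_pow hN h1 h2, ?_⟩
  rw [pow_mul, hx, Ideal.span_singleton_pow]

theorem mul_dvd_of (x t : 𝓞 K) (𝔠 : Ideal (𝓞 K)) (h : Ideal.span {x} * 𝔠 = Ideal.span {t}) :
    x ∣ t := by
  have h4 : t ∈ Ideal.span {x} * 𝔠 := by
    rw [h]
    exact Ideal.mem_span_singleton_self _
  have h5 : t ∈ Ideal.span {x} := (Ideal.mul_le_right : 𝔠 * Ideal.span {x} ≤ Ideal.span {x})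
    (by rw [mul_comm]; exact h4)
  exact Ideal.mem_span_singleton.1 h5

theorem main : Pool.Agent.H500.HC.S_Cls := by
  classical
  intro K _ _ N hN
  have := finite_quot (K := K) hN
  have : Finite (ClassGroup (𝓞 K) × ((𝓞 K) ⧸ Ideal.span {(N : 𝓞 K)}) × Set (K →+* ℝ)) :=
    inferInstance
  have := Fintype.ofFinite
    (ClassGroup (𝓞 K) × ((𝓞 K) ⧸ Ideal.span {(N : 𝓞 K)}) × Set (K →+* ℝ))
  refine ⟨hh K * ex K N, Finset.univ.image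
    (fun d : ClassGroup (𝓞 K) × ((𝓞 K) ⧸ Ideal.span {(N : 𝓞 K)}) × Set (K →+* ℝ) =>
      if h : ∃ 𝔟 : Ideal (𝓞 K), Good N 𝔟 ∧ dt N 𝔟 = d then h.choose else ⊤),
    Nat.mul_pos hh_pos (ex_pos hN), ?_, ?_⟩
  · intro 𝔯 h𝔯
    obtain ⟨d, -, rfl⟩ := Finset.mem_image.1 h𝔯
    have : Good N (if h : ∃ 𝔟 : Ideal (𝓞 K), Good N 𝔟 ∧ dt N 𝔟 = d then h.choose else ⊤) := by
      split_ifs with h
      · exact h.choose_spec.1
      · exact good_top N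
    exact this
  · intro 𝔞 h1 h2
    have ha : Good N 𝔞 := ⟨h1, h2⟩
    refine ⟨first hN ha, ?_⟩
    have hex : ∃ 𝔟 : Ideal (𝓞 K), Good N 𝔟 ∧ dt N 𝔟 = dt N 𝔞 := ⟨𝔞, ha, rfl⟩
    refine ⟨hex.choose, Finset.mem_image.2 ⟨dt N 𝔞, Finset.mem_univ _, dif_pos hex⟩, ?_⟩
    obtain ⟨hb, hd⟩ := hex.choose_spec
    set 𝔟 := hex.choose
    obtain ⟨x, y, hx, hy, hxy⟩ := equiv_of hN ha hb hd.symm
    obtain ⟨w, hw, hbw⟩ := first hN hb
    have hpos : 0 < hh K * ex K N := Nat.mul_pos hh_pos (ex_pos hN)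
    have h3 : Ideal.span {x} * (𝔞 * 𝔟 ^ (hh K * ex K N - 1)) = Ideal.span {y * w} := by
      rw [← mul_assoc, hxy, mul_assoc, ← pow_succ', Nat.sub_add_cancel hpos, hbw,
        Ideal.span_singleton_mul_span_singleton]
    obtain ⟨z, hz⟩ := mul_dvd_of x (y * w) _ h3
    refine ⟨z, inRay_of_mul hx (inRay_mul hy hw) hz, ?_⟩
    rw [hz, ← Ideal.span_singleton_mul_span_singleton] at h3
    refine mul_left_cancel₀ ?_ h3
    rw [Ne, Ideal.zero_eq_bot, Ideal.span_singleton_eq_bot]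
    exact hx.1

end Pool.Agent.H199.HC.Cls
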